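import Pool.Agent.Q96.ID.Stm

/-!
# Project ID (helper96), job AMALG (helper184): amalgamation of a coherent family
-/

set_option autoImplicit false

open Cardinal Set Filter Topology

namespace Q184.ID.AMALG

open Q96.ID

/-- truncation at `k` -/
def tr {J : Type} [LinearOrder J] (k : J) (w : WithTop J) : WithTop J :=
  if w ≤ (k : WithTop J) then w else ⊤

lemma tr_top {J : Type} [LinearOrder J] (k : J) : tr k (⊤ : WithTop J) = ⊤ := by
  unfold tr
  split_ifs <;> rfl

lemma tr_le {J : Type} [LinearOrder J] {k : J} {w : WithTop J} (h : w ≤ (k : WithTop J)) :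
    tr k w = w := by
  unfold tr
  rw [if_pos h]

lemma tr_ne {J : Type} [LinearOrder J] {k : J} {w : WithTop J} (h : tr k w ≠ ⊤) : tr k w = w := by
  unfold tr at h ⊢
  split_ifs at h ⊢ with h1
  · rfl
  · exact absurd rfl h

lemma union_lt {κ : Cardinal.{0}} (hκ : κ.IsRegular) {ι α : Type} (hι : #ι < κ) (t : ι → Set α)
    (ht : ∀ i, #(t i) < κ) : #(⋃ i, t i) < κ :=
  (card_iUnion_lt_iff_forall_of_isRegular hκ hι).2 ht

/-- **AMALG** -/
theorem t_AMALG : S_AMALG := by
  intro κ hκ I J _ _ _ _ hI hIio j hj V hV1 hV2 hV3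
  have hκ0 : ℵ₀ ≤ κ := hκ.aleph0_le
  by_cases hne : Nonempty (Iio j)
  swap
  · refine ⟨fun _ => ⊤, fun x => Or.inr rfl, fun ξ => ?_, fun k hk => absurd ⟨⟨k, hk⟩⟩ hne⟩
    have h1 : #{η : I // (⊤ : WithTop J) ≠ ⊤} = 0 := by
      rw [mk_eq_zero_iff]
      exact ⟨fun h => h.2 rfl⟩
    show #{η : I // (⊤ : WithTop J) ≠ ⊤} < κ
    rw [h1]
    exact lt_of_lt_of_le aleph0_pos hκ0
  obtain ⟨e, he⟩ : ∃ e : I → Iio j, Function.Surjective e := by
    have h1 : #(Iio j) ≤ #I := by
      rw [hI]
      exact hj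
    obtain ⟨f⟩ := h1
    exact ⟨Function.invFun f, Function.invFun_surjective f.injective⟩
  have hIic : ∀ i : I, #(Iic i) < κ := by
    intro i
    have h1 : (Iic i : Set I) ⊆ Iio i ∪ {i} := by
      intro a ha
      rcases lt_or_eq_of_le (show a ≤ i from ha) with h | h
      · exact Or.inl h
      · exact Or.inr h
    refine (mk_le_mk_of_subset h1).trans_lt ((mk_union_le _ _).trans_lt ?_)
    refine add_lt_of_lt hκ0 (hIio i) ?_
    rw [mk_singleton]
    exact one_lt_aleph0.trans_le hκ0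
  obtain ⟨Good, hGood⟩ : ∃ Good : I → I × I → Prop, ∀ i x, Good i x ↔ (i < x.1 ∧ ∀ a ≤ i, ∀ b ≤ i,
      (e a : J) < e b → V (e a) x = tr (e a : J) (V (e b) x)) := ⟨_, fun _ _ => Iff.rfl⟩
  have hmax : ∀ i i' x, Good i x → Good i' x → Good (max i i') x := by
    intro i i' x h h'
    rcases max_choice i i' with h1 | h1 <;> rw [h1] <;> assumption
  have hcmp : ∀ i i' x, Good i x → Good i' x → (e i : J) < e i' →
      V (e i) x = tr (e i : J) (V (e i') x) := by
    intro i i' x h h' hlt
    exact ((hGood _ _).1 (hmax i i' x h h')).2 i (le_max_left _ _) i' (le_max_right _ _) hlt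
  have huniq : ∀ i i' x, Good i x → Good i' x → V (e i) x ≠ ⊤ → V (e i') x ≠ ⊤ →
      V (e i) x = V (e i') x := by
    intro i i' x h h' h1 h2
    rcases lt_trichotomy (e i : J) (e i') with h3 | h3 | h3
    · have h4 := hcmp i i' x h h' h3
      rw [h4] at h1
      rw [h4, tr_ne h1]
    · rw [h3]
    · have h4 := hcmp i' i x h' h h3
      rw [h4] at h2
      rw [h4, tr_ne h2]
  have hUex : ∀ x : I × I, ∃ u : WithTop J, (u ≠ ⊤ → ∃ i, Good i x ∧ V (e i) x = u) ∧
      ∀ i, Good i x → V (e i) x ≠ ⊤ → u = V (e i) x := by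
    intro x
    by_cases h : ∃ i, Good i x ∧ V (e i) x ≠ ⊤
    · obtain ⟨i, hi, hi'⟩ := h
      exact ⟨V (e i) x, fun _ => ⟨i, hi, rfl⟩, fun i' h' h'' => huniq i i' x hi h' hi' h''⟩
    · exact ⟨⊤, fun h' => absurd rfl h', fun i h' h'' => absurd ⟨i, h', h''⟩ h⟩
  choose U hU1 hU2 using hUex
  have hthin : Thin κ U := by
    intro ξ
    have h1 : {η : I | U (ξ, η) ≠ ⊤} ⊆ ⋃ i : Iio ξ, {η : I | V (e (i : I)) (ξ, η) ≠ ⊤} := by
      intro η hη
      obtain ⟨i, hi, hi'⟩ := hU1 (ξ, η) hη
      refine mem_iUnion.2 ⟨⟨i, ((hGood _ _).1 hi).1⟩, ?_⟩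
      show V (e i) (ξ, η) ≠ ⊤
      rw [hi']
      exact hη
    exact (mk_le_mk_of_subset h1).trans_lt (union_lt hκ (hIio ξ) _ fun i => hV2 _ (e (i : I)).2 ξ)
  refine ⟨U, fun x => ?_, hthin, ?_⟩
  · by_cases h : U x = ⊤
    · exact Or.inr h
    · left
      obtain ⟨i, hi, hi'⟩ := hU1 x h
      rw [← hi'] at h ⊢
      rcases hV1 _ (e i).2 x with h1 | h1
      · exact h1.trans_lt (WithTop.coe_lt_coe.2 (e i).2)
      · exact absurd h1 h
  · intro k hk
    obtain ⟨i, hi⟩ := he ⟨k, hk⟩
    have hek : (e i : J) = k := by rw [hi]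
    -- the values at good points
    have hgood : ∀ x, Good i x → V k x = tr k (U x) := by
      intro x hx
      by_cases h1 : V k x = ⊤
      · by_cases h2 : U x = ⊤
        · rw [h1, h2, tr_top]
        · obtain ⟨a, ha, ha'⟩ := hU1 x h2
          rcases lt_trichotomy (e a : J) k with h3 | h3 | h3
          · have h4 := hcmp a i x ha hx (by rw [hek]; exact h3)
            rw [hek, h1, tr_top, ha'] at h4
            exact absurd h4 h2
          · rw [h3, h1] at ha'
            exact absurd ha'.symm h2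
          · have h4 := hcmp i a x hx ha (by rw [hek]; exact h3)
            rw [hek, ha'] at h4
            exact h4
      · have h2 : U x = V k x := by
          have := hU2 x i hx (by rw [hek]; exact h1)
          rw [hek] at this
          exact this
        rw [h2, tr_le]
        rcases hV1 k hk x with h3 | h3
        · exact h3
        · exact absurd h3 h1
    show #{x : I × I // V k x ≠ tr k (U x)} < κ
    have hsub : {x : I × I | V k x ≠ tr k (U x)} ⊆
        (⋃ ξ : Iic i, (fun η : I => ((ξ : I), η)) '' {η : I | U ((ξ : I), η) ≠ ⊤}) ∪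
        ((⋃ ξ : Iic i, (fun η : I => ((ξ : I), η)) '' {η : I | V k ((ξ : I), η) ≠ ⊤}) ∪
        ⋃ p : Iic i × Iic i, {x : I × I | (e (p.1 : I) : J) < e (p.2 : I) ∧
          V (e (p.1 : I)) x ≠ tr (e (p.1 : I) : J) (V (e (p.2 : I)) x)}) := by
      intro x hx
      by_cases h1 : i < x.1
      · right
        right
        have h2 : ¬ Good i x := fun h => hx (hgood x h)
        rw [hGood] at h2
        push Not at h2
        obtain ⟨a, ha, b, hb, hab, h3⟩ := h2 h1
        exact mem_iUnion.2 ⟨(⟨a, ha⟩, ⟨b, hb⟩), hab, h3⟩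
      · have hle : x.1 ≤ i := not_lt.1 h1
        by_cases h2 : U x = ⊤
        · right
          left
          refine mem_iUnion.2 ⟨⟨x.1, hle⟩, ⟨x.2, ?_, rfl⟩⟩
          intro h3
          apply hx
          have h4 : V k x = ⊤ := h3
          rw [h4, h2, tr_top]
        · left
          exact mem_iUnion.2 ⟨⟨x.1, hle⟩, ⟨x.2, h2, rfl⟩⟩
    refine (mk_le_mk_of_subset hsub).trans_lt ((mk_union_le _ _).trans_lt ?_)
    refine add_lt_of_lt hκ0 ?_ ((mk_union_le _ _).trans_lt (add_lt_of_lt hκ0 ?_ ?_))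
    · exact union_lt hκ (hIic i) _ fun ξ => mk_image_le.trans_lt (hthin ξ)
    · exact union_lt hκ (hIic i) _ fun ξ => mk_image_le.trans_lt (hV2 k hk ξ)
    · refine union_lt hκ ?_ _ fun p => ?_
      · rw [mk_prod]
        simp only [lift_id]
        exact mul_lt_of_lt hκ0 (hIic i) (hIic i)
      · by_cases h1 : (e (p.1 : I) : J) < e (p.2 : I)
        · refine (mk_le_mk_of_subset ?_).trans_lt (hV3 _ _ h1 (e (p.2 : I)).2)
          intro x hx
          exact hx.2
        · have h2 : {x : I × I | (e (p.1 : I) : J) < e (p.2 : I) ∧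
              V (e (p.1 : I)) x ≠ tr (e (p.1 : I) : J) (V (e (p.2 : I)) x)} = ∅ := by
            ext x
            simp only [mem_ofPred_eq, mem_empty_iff_false, iff_false, not_and]
            intro h3
            exact absurd h3 h1
          have h4 : #(∅ : Set (I × I)) = 0 := by
            rw [mk_eq_zero_iff]
            exact ⟨fun h => h.2⟩
          rw [h2, h4]
          exact lt_of_lt_of_le aleph0_pos hκ0

end Q184.ID.AMALG
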